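import Mathlib
import Pool.Agent.Q47.DG.EqdK
import Pool.Agent.Results.MP_9056e9_nt.AlmostAllExponents

/-!
# Pairs from two dense sets and the powers of `e`

For almost all `n` (all but `C N ^ (1 - κ)` of the `n ≤ N`) and EVERY `M` from `e ^ (η N)` to `e ^ (N / η)` at once, with
`x = e ^ n`, more generally `x = a e ^ n + P(n)`, the numbers `b x a' ^ k c + R_c(a') + y_a'` with `(a', c)` in the product of
ANY two dense sets of integers, arbitrary real numbers `y_a'` and arbitrary real polynomials `R_c` of degree less than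
`k ≤ K` are uniformly distributed modulo one, with a power saving. In particular (`k = 1`) the multiples of `x` by the
products `a' c`.

The proof uses the bound of `AlmostAllExponents` (starting file) for the distances of `a e ^ n + P(n)` to rational numbers,
an inverse theorem for the sums of Weyl (`H373R2/NB`) and a bilinear estimate (Cauchy-Schwarz in short blocks,
`Pool/Agent/Q47/DG/EqdK`).
-/

set_option autoImplicit false

namespace Pool.Agent.Results.MP_9056e9_nt.PairsFromDenseSets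

open Finset Polynomial

/-- Polynomials over two dense sets are uniformly distributed at the scale `M`, with a power saving: for all integers
`b ≠ 0` with `|b| ≤ M ^ κ`, all degrees `1 ≤ k ≤ K`, all integers `H ≥ M ^ η`, ALL sets `A` of integers in `[0, M)` and `B` of
integers in `[0, H)` with `|A| |B| ≥ M ^ (1 - κ) H`, all real numbers `y_a`, all real polynomials `R_c` of degree less than
`k` and all `0 ≤ u ≤ v ≤ 1`, the number of the pairs `(a, c) ∈ A × B` with the fractional part of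
`b x a ^ k c + R_c(a) + y_a` in `[u, v)` is `(v - u) |A| |B|`, up to `|A| |B| M ^ (-κ)`. -/
def PGood (K : ℕ) (η κ : ℝ) (M : ℕ) (x : ℝ) : Prop :=
  ∀ b : ℤ, b ≠ 0 → |(b : ℝ)| ≤ (M : ℝ) ^ κ → ∀ k : ℕ, 1 ≤ k → k ≤ K → ∀ H : ℕ, (M : ℝ) ^ η ≤ H →
    ∀ A B : Finset ℕ, (∀ a ∈ A, a < M) → (∀ c ∈ B, c < H) → (M : ℝ) ^ (1 - κ) * H ≤ #A * #B →
    ∀ (y : ℕ → ℝ) (R : ℕ → ℝ[X]), (∀ c, (R c).degree < k) → ∀ u v : ℝ, 0 ≤ u → u ≤ v → v ≤ 1 →
      |(#{i ∈ A ×ˢ B | u ≤ Int.fract (b * x * i.1 ^ k * i.2 + (R i.2).eval (i.1 : ℝ) + y i.1) ∧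
          Int.fract (b * x * i.1 ^ k * i.2 + (R i.2).eval (i.1 : ℝ) + y i.1) < v} : ℝ) -
        (v - u) * (#A * #B)| ≤ #A * #B * (M : ℝ) ^ (-κ)

theorem pgood_iff (K : ℕ) (η κ : ℝ) (M : ℕ) (x : ℝ) : PGood K η κ M x ↔ Pool.Agent.Q47.DG.PGood K η κ M x := Iff.rfl

/-- **Pairs from two dense sets and `a e ^ n + P(n)`, for almost all `n`.** -/
theorem result (D K : ℕ) (θ : ℝ) (hθ : 0 < θ) (η : ℝ) (hη : 0 < η) (hη1 : η ≤ 1) : ∃ κ C : ℝ, 0 < κ ∧ ∀ (a : ℝ) (P : ℝ[X]) (N : ℕ),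
    1 ≤ N → 1 ≤ |a| → |a| ≤ Real.exp N → P.natDegree ≤ D →
      ({n : ℕ | 1 ≤ n ∧ n ≤ N ∧ ∃ M : ℕ, Real.exp (η * N) ≤ M ∧ (M : ℝ) ≤ Real.exp (N / η) ∧
        ¬ PGood K θ κ M (a * Real.exp n + P.eval (n : ℝ))}.ncard : ℝ) ≤ C * (N : ℝ) ^ (1 - κ) := by
  obtain ⟨A, hA, h⟩ := Pool.Agent.Results.MP_9056e9_nt.AlmostAllExponents.result D
  obtain ⟨c, hcE⟩ : ∃ c : ℝ, c = 96 * 2 ^ D := ⟨_, rfl⟩
  have hc96 : 96 ≤ c := by
    rw [hcE]
    have : (1 : ℝ) ≤ 2 ^ D := one_le_pow₀ (by norm_num)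
    linarith
  obtain ⟨δ, hδE⟩ : ∃ δ : ℝ, δ = η / 8 := ⟨_, rfl⟩
  have hδ : 0 < δ := by rw [hδE]; positivity
  have hδ8 : δ ≤ 1 / 8 := by rw [hδE]; linarith
  obtain ⟨δ₁, hδ₁E⟩ : ∃ δ₁ : ℝ, δ₁ = η ^ 2 * δ / (8 * c) := ⟨_, rfl⟩
  have hδ₁ : 0 < δ₁ := by rw [hδ₁E]; positivity
  have hη2 : η ^ 2 ≤ 1 := pow_le_one₀ hη.le hη1
  have hδ₁8 : δ₁ ≤ 1 / 8 := by
    rw [hδ₁E, div_le_iff₀ (by positivity)]
    nlinarith
  have hδ₁c : δ₁ / η * (c / δ) = η / 8 := by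
    rw [hδ₁E]
    field_simp
  obtain ⟨κ₁, hκ₁, hκ₁1, M₀, hM₀, hgood⟩ := Pool.Agent.Q47.DG.pgood_engine K θ hθ δ₁ hδ₁
  obtain ⟨κ₂, hκ₂E⟩ : ∃ κ₂ : ℝ, κ₂ = δ ^ 2 / (12800 * 2 ^ D) := ⟨_, rfl⟩
  have hκ₂ : 0 < κ₂ := by rw [hκ₂E]; positivity
  have hκ₂1 : κ₂ ≤ 1 := by
    rw [hκ₂E, div_le_one (by positivity)]
    have : (1 : ℝ) ≤ 2 ^ D := one_le_pow₀ (by norm_num)
    nlinarith
  obtain ⟨N₀, hN₀⟩ : ∃ N₀ : ℕ, ∀ N : ℕ, N₀ ≤ N → (M₀ : ℝ) ≤ Real.exp (η * N) := by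
    obtain ⟨N₀, hN₀⟩ := exists_nat_ge ((M₀ : ℝ) / η)
    refine ⟨N₀, fun N hN => ?_⟩
    have h1 : (M₀ : ℝ) / η ≤ N := hN₀.trans (by exact_mod_cast hN)
    rw [div_le_iff₀ hη] at h1
    have h2 := Real.add_one_le_exp (η * N)
    linarith
  refine ⟨min κ₁ κ₂, max (A / δ) N₀, lt_min hκ₁ hκ₂, fun a P N hN ha1 ha2 hP => ?_⟩
  have hNR : (1 : ℝ) ≤ N := by exact_mod_cast hN
  have hNR0 : (0 : ℝ) < N := by linarith
  have hNκ : (1 : ℝ) ≤ (N : ℝ) ^ (1 - min κ₁ κ₂) :=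
    Real.one_le_rpow hNR (by linarith [min_le_right κ₁ κ₂])
  rcases lt_or_ge N N₀ with hlt | hge
  · have h1 : {n : ℕ | 1 ≤ n ∧ n ≤ N ∧ ∃ M : ℕ, Real.exp (η * N) ≤ M ∧ (M : ℝ) ≤ Real.exp (N / η) ∧
        ¬ PGood K θ (min κ₁ κ₂) M (a * Real.exp n + P.eval (n : ℝ))} ⊆ ((Icc 1 N : Finset ℕ) : Set ℕ) := by
      rintro n ⟨hn1, hn2, -⟩
      rw [mem_coe, mem_Icc]
      exact ⟨hn1, hn2⟩
    have h2 := Set.ncard_le_ncard h1 (Finset.finite_toSet _)
    rw [Set.ncard_coe_finset, Nat.card_Icc] at h2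
    have h3 : ((N + 1 - 1 : ℕ) : ℝ) ≤ N₀ := by
      exact_mod_cast (by omega : N + 1 - 1 ≤ N₀)
    calc _ ≤ ((N + 1 - 1 : ℕ) : ℝ) := by exact_mod_cast h2
      _ ≤ N₀ := h3
      _ ≤ max (A / δ) N₀ := le_max_right _ _
      _ ≤ _ := le_mul_of_one_le_right (le_trans (Nat.cast_nonneg _) (le_max_right _ _)) hNκ
  · have hexp := hN₀ N hge
    have h1 := h δ a (Real.exp (δ₁ / η * N)) P N hδ (by linarith) ha1 (Real.one_le_exp (by positivity)) hP hN
    rw [← hcE, ← hκ₂E] at h1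
    have hsub : {n : ℕ | 1 ≤ n ∧ n ≤ N ∧ ∃ M : ℕ, Real.exp (η * N) ≤ M ∧ (M : ℝ) ≤ Real.exp (N / η) ∧
        ¬ PGood K θ (min κ₁ κ₂) M (a * Real.exp n + P.eval (n : ℝ))} ⊆
        {n : ℕ | 1 ≤ n ∧ n ≤ N ∧ ∃ (q : ℕ) (p : ℤ), 1 ≤ q ∧ (q : ℝ) ≤ Real.exp (δ₁ / η * N) ∧
        |a * Real.exp n + P.eval (n : ℝ) - p / q| <
          (|a| * Real.exp n) ^ (-δ) * Real.exp (δ₁ / η * N) ^ (-(c / δ))} := by
      rintro n ⟨hn1, hn2, M, hM1, hM2, hbad⟩
      refine ⟨hn1, hn2, ?_⟩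
      have hMM₀ : M₀ ≤ M := by exact_mod_cast hexp.trans hM1
      have hMpos : 1 ≤ M := by omega
      have hMR1 : (1 : ℝ) ≤ M := by exact_mod_cast hMpos
      have hMR0 : (0 : ℝ) < M := by linarith
      have hres : Pool.Agent.Q29.Eqd.Res δ₁ M (a * Real.exp n + P.eval (n : ℝ)) := by
        by_contra hcon
        exact hbad ((pgood_iff _ _ _ _ _).2 ((hgood M hMM₀ _ hcon).mono hMpos (min_le_left _ _)))
      obtain ⟨q, hq, hqM, p, hp⟩ := hres
      have hq1 : (1 : ℝ) ≤ q := by exact_mod_cast hq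
      have hq0 : (0 : ℝ) < q := by linarith
      refine ⟨q, p, hq, ?_, ?_⟩
      · calc (q : ℝ) ≤ (M : ℝ) ^ δ₁ := hqM
          _ ≤ (Real.exp (N / η)) ^ δ₁ := Real.rpow_le_rpow hMR0.le hM2 hδ₁.le
          _ = Real.exp (δ₁ / η * N) := by
              rw [← Real.exp_mul]
              congr 1
              ring
      · have h2 : |a * Real.exp n + P.eval (n : ℝ) - p / q| ≤ (M : ℝ) ^ (δ₁ - 1) := by
          have e1 : |a * Real.exp n + P.eval (n : ℝ) - p / q| =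
              |(q : ℝ) * (a * Real.exp n + P.eval (n : ℝ)) - p| / q := by
            rw [eq_div_iff hq0.ne', mul_comm, ← Nat.abs_cast q, ← abs_mul, Nat.abs_cast]
            congr 1
            field_simp
          rw [e1, div_le_iff₀ hq0]
          refine hp.trans (le_mul_of_one_le_right (by positivity) hq1)
        have h3 : (M : ℝ) ^ (δ₁ - 1) ≤ Real.exp (-(1 / 2) * (η * N)) := by
          calc (M : ℝ) ^ (δ₁ - 1) ≤ (M : ℝ) ^ (-(1 / 2) : ℝ) := Real.rpow_le_rpow_of_exponent_le hMR1 (by linarith)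
            _ ≤ (Real.exp (η * N)) ^ (-(1 / 2) : ℝ) :=
                Real.rpow_le_rpow_of_nonpos (Real.exp_pos _) hM1 (by norm_num)
            _ = _ := by
                rw [← Real.exp_mul]
                congr 1
                ring
        have h4 : Real.exp (-(2 * δ * N)) ≤ (|a| * Real.exp n) ^ (-δ) := by
          have h5 : |a| * Real.exp n ≤ Real.exp (2 * N) := by
            calc |a| * Real.exp n ≤ Real.exp N * Real.exp N := by
                  apply mul_le_mul ha2 _ (Real.exp_pos _).le (Real.exp_pos _).le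
                  exact Real.exp_le_exp.2 (by exact_mod_cast hn2)
              _ = Real.exp (2 * N) := by rw [← Real.exp_add]; congr 1; ring
          calc Real.exp (-(2 * δ * N)) = (Real.exp (2 * N)) ^ (-δ) := by
                rw [← Real.exp_mul]
                congr 1
                ring
            _ ≤ _ := Real.rpow_le_rpow_of_nonpos (mul_pos (by linarith) (Real.exp_pos _)) h5 (by linarith)
        have h5 : Real.exp (δ₁ / η * N) ^ (-(c / δ)) = Real.exp (-(η / 8) * N) := by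
          rw [← Real.exp_mul]
          congr 1
          rw [← hδ₁c]
          ring
        refine lt_of_le_of_lt (h2.trans h3) ?_
        rw [h5]
        refine lt_of_lt_of_le ?_ (mul_le_mul_of_nonneg_right h4 (Real.exp_pos _).le)
        rw [← Real.exp_add, Real.exp_lt_exp, hδE]
        have : 0 < η * N := by positivity
        nlinarith
    have hfin : {n : ℕ | 1 ≤ n ∧ n ≤ N ∧ ∃ (q : ℕ) (p : ℤ), 1 ≤ q ∧ (q : ℝ) ≤ Real.exp (δ₁ / η * N) ∧
        |a * Real.exp n + P.eval (n : ℝ) - p / q| <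
          (|a| * Real.exp n) ^ (-δ) * Real.exp (δ₁ / η * N) ^ (-(c / δ))}.Finite := by
      refine (Finset.finite_toSet (Icc 1 N)).subset ?_
      rintro n ⟨hn1, hn2, -⟩
      rw [mem_coe, mem_Icc]
      exact ⟨hn1, hn2⟩
    have h2 := Set.ncard_le_ncard hsub hfin
    calc _ ≤ (({n : ℕ | 1 ≤ n ∧ n ≤ N ∧ ∃ (q : ℕ) (p : ℤ), 1 ≤ q ∧ (q : ℝ) ≤ Real.exp (δ₁ / η * N) ∧
          |a * Real.exp n + P.eval (n : ℝ) - p / q| <
            (|a| * Real.exp n) ^ (-δ) * Real.exp (δ₁ / η * N) ^ (-(c / δ))}.ncard : ℕ) : ℝ) := by exact_mod_cast h2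
      _ ≤ A / δ * (N : ℝ) ^ (1 - κ₂) := h1
      _ ≤ max (A / δ) N₀ * (N : ℝ) ^ (1 - min κ₁ κ₂) := by
          apply mul_le_mul (le_max_left _ _) _ (by positivity) (le_trans (by positivity) (le_max_left _ _))
          exact Real.rpow_le_rpow_of_exponent_le hNR (by linarith [min_le_right κ₁ κ₂])

end Pool.Agent.Results.MP_9056e9_nt.PairsFromDenseSets
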