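import Mathlib
import Pool.Agent.Q21.DW.Dy
import Pool.Agent.Results.MP_9056e9_nt.DigitsOfPowersOfE

set_option autoImplicit false

/-! # The digits of `e ^ n` for exponents `n` given by the digits of a real number

For almost every real number `α` and ALL exponents `n` that are written by `k` consecutive digits of `α` in
some base `g`, after one of the first `g ^ (t k)` places, `t < 1 - s`, if `k` is large: every long block of
the base `b` digits of `e ^ n` has a linear complexity larger than a constant times its length.  The same for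
`a e ^ n + P(n)`, for countably many pairs `(a, P)` at once, `a ≠ 0`, `P` real polynomials of bounded degree.
With Hausdorff dimensions of the sets of the exceptional `α`, and the same for the exponents near the
multiples of `α`. -/

namespace Pool.Agent.Results.MP_9056e9_nt.RandomExponentDigits

open Finset Polynomial

/-- the digit of `x` in base `b` at the place `i` after the point (before the point for `i ≤ 0`) -/
noncomputable def digit (b : ℕ) (x : ℝ) (i : ℤ) : ℤ := ⌊x * (b : ℝ) ^ i⌋ % (b : ℤ)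

/-- the linear complexity of the block of the digits of `x` at the places `u + 1, …, u + L`: the
least order `m` of a linear recurrence `s_(i+m) = c_0 s_i + … + c_(m-1) s_(i+m-1)` over `ℚ` which
they satisfy -/
noncomputable def complexity (b : ℕ) (x : ℝ) (u : ℤ) (L : ℕ) : ℕ :=
  sInf {m | ∃ c : ℕ → ℚ, ∀ i : ℕ, 1 ≤ i → i + m ≤ L →
    (digit b x (u + (i + m : ℕ)) : ℚ) = ∑ j ∈ range m, c j * (digit b x (u + (i + j : ℕ)) : ℚ)}

/-- all blocks of at least `2 δ n` base `b` digits of `x = a e ^ n + P(n)`, starting not before the place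
of the leading digit of `a e ^ n` and ending at most at the place `n / δ`, have a linear complexity larger
than `δ ^ 2 / (50000 · 2 ^ D)` times their length -/
def Complex (b D : ℕ) (δ a : ℝ) (P : ℝ[X]) (n : ℕ) : Prop :=
  ∀ (u : ℤ) (L : ℕ), 1 ≤ |a| * Real.exp n * (b : ℝ) ^ u → 2 * δ * n ≤ L → (u : ℝ) + L ≤ n / δ →
    δ ^ 2 / (50000 * 2 ^ D) * L < (complexity b (a * Real.exp n + P.eval (n : ℝ)) u L : ℝ)

section

lemma complex (D b : ℕ) (δ : ℝ) (hb : 2 ≤ b) (hδ : 0 < δ) (hδ1 : δ ≤ 1) (a : ℕ → ℝ) (P : ℕ → ℝ[X])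
    (ha : ∀ i, a i ≠ 0) (hP : ∀ i, (P i).natDegree ≤ D) :
    Pool.Agent.Q21.DW.RandomReals (1 - δ ^ 4 / (13107200 * 2 ^ D))
      (fun i => Complex b D δ (a i) (P i)) := by
  have h2D : (1 : ℝ) ≤ 2 ^ D := one_le_pow₀ (by norm_num)
  have hs0 : 0 < δ ^ 4 / (13107200 * 2 ^ D) := by positivity
  have hs1 : δ ^ 4 / (13107200 * 2 ^ D) ≤ 1 := by
    rw [div_le_one (by positivity)]
    have : δ ^ 4 ≤ 1 := pow_le_one₀ hδ.le hδ1
    linarith
  refine Pool.Agent.Q21.DW.randomReals_of (B := fun i n => ¬ Complex b D δ (a i) (P i) n)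
    (by linarith) (by linarith) (fun i => ?_) (fun i n _ h2 => not_not.1 h2)
  refine Pool.Agent.Q21.DW.ps_dyadic' (by linarith) fun t ht => ?_
  obtain ⟨C, hC, h⟩ := DigitsOfPowersOfE.result D b hb δ hδ hδ1
  obtain ⟨N₁, hN₁⟩ := exists_nat_ge (-Real.log |a i|)
  obtain ⟨N₂, hN₂⟩ := exists_nat_ge (Real.log |a i|)
  have hai : 0 < |a i| := abs_pos.2 (ha i)
  refine ⟨C, max N₁ N₂, fun N hN hN1 => ?_⟩
  have hN1' : (1 : ℝ) ≤ N := by exact_mod_cast hN1
  have hNa : (N₁ : ℝ) ≤ N := by exact_mod_cast (le_trans (le_max_left _ _) hN)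
  have hNb : (N₂ : ℝ) ≤ N := by exact_mod_cast (le_trans (le_max_right _ _) hN)
  have h1 : Real.exp (-(N : ℝ)) ≤ |a i| := by
    rw [← Real.exp_log hai]
    exact Real.exp_le_exp.2 (by linarith)
  have h2 : |a i| ≤ Real.exp N := by
    rw [← Real.exp_log hai]
    exact Real.exp_le_exp.2 (by linarith)
  have h3 := h (a i) (P i) N hN1 h1 h2 (hP i)
  refine le_trans (Nat.cast_le.2 (Set.ncard_le_ncard ?_ ?_)) (h3.trans ?_)
  · rintro n ⟨g1, g2, g3, g4⟩
    unfold Complex at g4
    push Not at g4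
    obtain ⟨u, L, g5, g6, g7, g8⟩ := g4
    have hn : (N : ℝ) < 2 * n := by exact_mod_cast g3
    have hn2 : (n : ℝ) ≤ N := by exact_mod_cast g2
    refine ⟨g1, g2, u, L, g5, ?_, ?_, g8⟩
    · refine le_trans ?_ g6
      nlinarith
    · exact g7.trans (div_le_div_of_nonneg_right hn2 hδ.le)
  · exact (Set.finite_Icc 1 N).subset fun n hn => ⟨hn.1, hn.2.1⟩
  · exact mul_le_mul_of_nonneg_left (Real.rpow_le_rpow_of_exponent_le hN1' ht.le) hC.le

end

/-- **Theorem.** In the sense of `RandomReals s` (digits and dilates of almost all real numbers, with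
Hausdorff dimensions), for all sequences of real numbers `a i ≠ 0` and real polynomials `P i` of degree at
most `D`: with `s = 1 - δ ^ 4 / (13107200 · 2 ^ D)` the long blocks of digits of `a i e ^ n + P i (n)` have
large linear complexity. -/
theorem result (D b : ℕ) (δ : ℝ) (hb : 2 ≤ b) (hδ : 0 < δ) (hδ1 : δ ≤ 1) (a : ℕ → ℝ) (P : ℕ → ℝ[X])
    (ha : ∀ i, a i ≠ 0) (hP : ∀ i, (P i).natDegree ≤ D) :
    Pool.Agent.Q21.DW.RandomReals (1 - δ ^ 4 / (13107200 * 2 ^ D))
      (fun i => Complex b D δ (a i) (P i)) :=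
  complex D b δ hb hδ hδ1 a P ha hP

end Pool.Agent.Results.MP_9056e9_nt.RandomExponentDigits
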