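import Mathlib
import Pool.Agent.Q21.DW.Dy
import Pool.Agent.Results.MP_9056e9_nt.MultiplesAlongPrimes

set_option autoImplicit false

/-! # The multiples of `e ^ n` for exponents `n` given by the digits of a real number

For almost every real number `α` and ALL exponents `n` that are written by `k` consecutive digits of `α` in
some base `g`, after one of the first `g ^ (t k)` places, `t < 1 - s`, if `k` is large: for every `M` between
`e ^ (2 η n)` and `e ^ (n / η)` the multiples `m e ^ n`, `m < M`, are uniformly distributed modulo one with a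
power saving, also along polynomials and along the primes of arithmetic progressions.  The same for
`a e ^ n + P(n)`, for countably many pairs `(a, P)` at once, `|a| ≥ 1`, `P` real polynomials of bounded
degree.  With Hausdorff dimensions of the sets of the exceptional `α`, and the same for the exponents near
the multiples of `α`. -/

namespace Pool.Agent.Results.MP_9056e9_nt.RandomExponentMultiples

open Finset Polynomial

/-- The multiples of `x` are uniformly distributed at the scale `M`, with a power saving, along all polynomials of degree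
at most `K` and along the primes of all residue classes:

* for every nonzero integer `b` with `|b| ≤ M ^ κ`, every `1 ≤ k ≤ K` and every real polynomial `R` of degree less than
  `k`, the number of `0 ≤ n < M` with the fractional part of `b x n ^ k + R(n)` in `[u, v)` is `(v - u) M` up to
  `M ^ (1 - κ)`, for all `0 ≤ u ≤ v ≤ 1`;
* for every such `b`, every `1 ≤ d ≤ M ^ κ`, every `r` and every real `β`, the number of primes `p ≤ M` with
  `p ≡ r (mod d)` and the fractional part of `b x p + β` in `[u, v)` is `(v - u)` times the number of all the primes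
  `p ≤ M` with `p ≡ r (mod d)`, up to `M ^ (1 - κ)`. -/
def Good (κ : ℝ) (K M : ℕ) (x : ℝ) : Prop :=
  (∀ b : ℤ, b ≠ 0 → |(b : ℝ)| ≤ (M : ℝ) ^ κ → ∀ k : ℕ, 1 ≤ k → k ≤ K → ∀ R : ℝ[X], R.degree < k →
    ∀ u v : ℝ, 0 ≤ u → u ≤ v → v ≤ 1 →
      |(((range M).filter fun n : ℕ => u ≤ Int.fract (b * x * (n : ℝ) ^ k + R.eval (n : ℝ)) ∧
          Int.fract (b * x * (n : ℝ) ^ k + R.eval (n : ℝ)) < v).card : ℝ) - (v - u) * M| ≤
        (M : ℝ) ^ (1 - κ)) ∧
  (∀ b : ℤ, b ≠ 0 → |(b : ℝ)| ≤ (M : ℝ) ^ κ → ∀ d r : ℕ, 1 ≤ d → (d : ℝ) ≤ (M : ℝ) ^ κ → ∀ β : ℝ,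
    ∀ u v : ℝ, 0 ≤ u → u ≤ v → v ≤ 1 →
      |(((range (M + 1)).filter fun p : ℕ => (p.Prime ∧ p ≡ r [MOD d]) ∧
          (u ≤ Int.fract (b * x * p + β) ∧ Int.fract (b * x * p + β) < v)).card : ℝ) -
        (v - u) * ((range (M + 1)).filter fun p : ℕ => p.Prime ∧ p ≡ r [MOD d]).card| ≤
        (M : ℝ) ^ (1 - κ))

/-- the multiples of `a e ^ n + P(n)` are uniformly distributed, in the sense of `Good κ K M`, at all the
scales `M` between `e ^ (2 η n)` and `e ^ (n / η)` -/
def Multiples (K : ℕ) (η κ a : ℝ) (P : ℝ[X]) (n : ℕ) : Prop :=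
  ∀ M : ℕ, Real.exp (2 * η * n) ≤ M → (M : ℝ) ≤ Real.exp (n / η) →
    Good κ K M (a * Real.exp n + P.eval (n : ℝ))

section

lemma multiples (D K : ℕ) (η : ℝ) (hη : 0 < η) (hη1 : η ≤ 1) :
    ∃ κ s : ℝ, 0 < κ ∧ 0 ≤ s ∧ s < 1 ∧ ∀ (a : ℕ → ℝ) (P : ℕ → ℝ[X]), (∀ i, 1 ≤ |a i|) →
      (∀ i, (P i).natDegree ≤ D) →
      Pool.Agent.Q21.DW.RandomReals s (fun i => Multiples K η κ (a i) (P i)) := by
  obtain ⟨κ, C, hκ, h⟩ := MultiplesAlongPrimes.result D K η hη hη1
  have hκ1 : 0 < min κ 1 := lt_min hκ one_pos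
  have hκ2 := min_le_right κ (1 : ℝ)
  refine ⟨κ, 1 - min κ 1, hκ, by linarith, by linarith, fun a P ha hP => ?_⟩
  refine Pool.Agent.Q21.DW.randomReals_of (B := fun i n => ¬ Multiples K η κ (a i) (P i) n)
    (by linarith) (by linarith) (fun i => ?_) (fun i n _ h2 => not_not.1 h2)
  refine Pool.Agent.Q21.DW.ps_dyadic' (by linarith) fun t ht => ?_
  obtain ⟨N₂, hN₂⟩ := exists_nat_ge (Real.log |a i|)
  have hai : 0 < |a i| := by linarith [ha i]
  refine ⟨|C|, N₂, fun N hN hN1 => ?_⟩
  have hN1' : (1 : ℝ) ≤ N := by exact_mod_cast hN1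
  have hNb : (N₂ : ℝ) ≤ N := by exact_mod_cast hN
  have h2 : |a i| ≤ Real.exp N := by
    rw [← Real.exp_log hai]
    exact Real.exp_le_exp.2 (by linarith)
  have h3 := h (a i) (P i) N hN1 (ha i) h2 (hP i)
  refine le_trans (Nat.cast_le.2 (Set.ncard_le_ncard ?_ ?_)) (h3.trans ?_)
  · rintro n ⟨g1, g2, g3, g4⟩
    unfold Multiples at g4
    push Not at g4
    obtain ⟨M, g5, g6, g7⟩ := g4
    have hn : (N : ℝ) < 2 * n := by exact_mod_cast g3
    have hn2 : (n : ℝ) ≤ N := by exact_mod_cast g2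
    refine ⟨g1, g2, M, le_trans (Real.exp_le_exp.2 ?_) g5, g6.trans (Real.exp_le_exp.2 ?_), g7⟩
    · nlinarith
    · exact div_le_div_of_nonneg_right hn2 hη.le
  · exact (Set.finite_Icc 1 N).subset fun n hn => ⟨hn.1, hn.2.1⟩
  · refine (mul_le_mul_of_nonneg_right (le_abs_self C) (by positivity)).trans ?_
    refine mul_le_mul_of_nonneg_left (Real.rpow_le_rpow_of_exponent_le hN1' ?_) (abs_nonneg C)
    linarith [min_le_left κ (1 : ℝ)]

end

/-- **Theorem.** For all `D`, `K` and `0 < η ≤ 1` there are `κ > 0` and `s < 1` such that for all sequences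
of real numbers `a i`, `|a i| ≥ 1`, and real polynomials `P i` of degree at most `D`, in the sense of
`RandomReals s` (digits and dilates of almost all real numbers, with Hausdorff dimensions): the multiples of
`a i e ^ n + P i (n)` are uniformly distributed with a power saving (`Good κ K`) at all the scales between
`e ^ (2 η n)` and `e ^ (n / η)`. -/
theorem result (D K : ℕ) (η : ℝ) (hη : 0 < η) (hη1 : η ≤ 1) :
    ∃ κ s : ℝ, 0 < κ ∧ 0 ≤ s ∧ s < 1 ∧ ∀ (a : ℕ → ℝ) (P : ℕ → ℝ[X]), (∀ i, 1 ≤ |a i|) →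
      (∀ i, (P i).natDegree ≤ D) →
      Pool.Agent.Q21.DW.RandomReals s (fun i => Multiples K η κ (a i) (P i)) :=
  multiples D K η hη hη1

end Pool.Agent.Results.MP_9056e9_nt.RandomExponentMultiples
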